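import Pool.Agent.KS6_19.PB.Basic
import Pool.Agent.KS6_19.PB.Orbit

/-!
# The Bloch group of a curve is generated by functions of bounded degree

Let `K` be the function field of a smooth projective curve `X` of genus `g` over an algebraically
closed field `k` of characteristic zero. Every element `[x]`, `x ∈ K`, of the pre-Bloch group of
`K` (the free group on the elements of `K` modulo the five term relation of the dilogarithm) is a
combination of elements `[y]` with functions `y : X → ℙ¹` of degree at most `4 g + 1`.

If a group `G` acts on `K` with finite orbits, for instance `K = ℚ̄(X)` and `G` the Galois group of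
`ℚ̄` over a number field `F` over which `X` is defined, then the invariants under `G` of the
pre-Bloch group (tensored with `ℚ`) are spanned by the sums `∑ [z]` over the orbits of functions of
degree at most `4 g + 1`.
-/

set_option autoImplicit false

namespace Pool.Agent.Results.MP_a09a03_nt.BlochGroupBoundedDegree

open FF Module IntermediateField Pool.Agent.KS6_19.CG

/-- The relations of the pre-Bloch group of the field `F`: `[0]`, `[1]`, and the five term
relations
`[x] - [y] + [y / x] - [(1 - x⁻¹) / (1 - y⁻¹)] + [(1 - x) / (1 - y)]`, `x ≠ y`, `x, y ≠ 0, 1`. -/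
def relations (F : Type*) [Field F] : Set (F →₀ ℚ) :=
  {r | r = Finsupp.single 0 1 ∨ r = Finsupp.single 1 1 ∨
    ∃ x y : F, x ≠ 0 ∧ x ≠ 1 ∧ y ≠ 0 ∧ y ≠ 1 ∧ x ≠ y ∧
      r = Finsupp.single x 1 - Finsupp.single y 1 + Finsupp.single (y / x) 1 -
        Finsupp.single ((1 - x⁻¹) / (1 - y⁻¹)) 1 + Finsupp.single ((1 - x) / (1 - y)) 1}

/-- The pre-Bloch group of the field `F`, tensored with `ℚ`. -/
abbrev PreBloch (F : Type*) [Field F] : Type _ :=
  (F →₀ ℚ) ⧸ Submodule.span ℚ (relations F)

/-- The element `[x]` of the pre-Bloch group. -/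
noncomputable def bl {F : Type*} [Field F] (x : F) : PreBloch F :=
  Submodule.Quotient.mk (Finsupp.single x 1)

theorem relations_le {F : Type*} [Field F] (σ : F ≃+* F) :
    Submodule.span ℚ (relations F) ≤
      (Submodule.span ℚ (relations F)).comap (Finsupp.lmapDomain ℚ ℚ σ) := by
  rw [Submodule.span_le]
  rintro r (rfl | rfl | ⟨x, y, h1, h2, h3, h4, h5, rfl⟩)
  · rw [SetLike.mem_coe, Submodule.mem_comap, Finsupp.lmapDomain_apply, Finsupp.mapDomain_single,
      map_zero]
    exact Submodule.subset_span (Or.inl rfl)
  · rw [SetLike.mem_coe, Submodule.mem_comap, Finsupp.lmapDomain_apply, Finsupp.mapDomain_single,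
      map_one]
    exact Submodule.subset_span (Or.inr (Or.inl rfl))
  · rw [SetLike.mem_coe, Submodule.mem_comap]
    refine Submodule.subset_span (Or.inr (Or.inr ⟨σ x, σ y, ?_, ?_, ?_, ?_, ?_, ?_⟩))
    · simpa using h1
    · simpa using h2
    · simpa using h3
    · simpa using h4
    · simpa using h5
    · simp only [map_add, map_sub, Finsupp.lmapDomain_apply, Finsupp.mapDomain_single, map_div₀,
        map_inv₀, map_one]

/-- The action of an automorphism of the field on the pre-Bloch group, `[x] ↦ [σ x]`. -/
noncomputable def act {F : Type*} [Field F] (σ : F ≃+* F) : PreBloch F →ₗ[ℚ] PreBloch F :=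
  Submodule.mapQ _ _ (Finsupp.lmapDomain ℚ ℚ σ) (relations_le σ)

theorem act_bl {F : Type*} [Field F] (σ : F ≃+* F) (x : F) : act σ (bl x) = bl (σ x) := by
  unfold act bl
  rw [Submodule.mapQ_apply, Finsupp.lmapDomain_apply, Finsupp.mapDomain_single]

/-- Let `k` be an algebraically closed field of characteristic zero, `K/k` a function field of one
variable of genus `g`, and let the group `G` act on the field `K` with finite orbits (for the
trivial group this is no condition). Then every `G`-invariant element of the pre-Bloch group of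
`K`, tensored with `ℚ`, is a linear combination of sums `∑_{z ∈ G y} [z]` over the orbits of
elements `y ∈ K` with `[K : k(y)] ≤ 4 g + 1` (this includes the constants `y`, for which
`finrank` is zero). -/
theorem result (k K : Type*) [Field k] [IsAlgClosed k] [CharZero k] [Field K] [Algebra k K]
    [IsFF k K] (g : ℤ) (hg : IsGenus k K g)
    (G : Type*) [Group G] [MulSemiringAction G K] (hG : ∀ x : K, (MulAction.orbit G x).Finite)
    (α : PreBloch K) (hα : ∀ σ : G, act (MulSemiringAction.toRingEquiv G K σ) α = α) :
    α ∈ Submodule.span ℚ {β : PreBloch K | ∃ y : K, (finrank k⟮y⟯ K : ℤ) ≤ 4 * g + 1 ∧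
      β = ∑ᶠ z ∈ MulAction.orbit G y, bl z} := by
  have h1 : α ∈ Submodule.span ℚ (bl '' {y : K | (finrank k⟮y⟯ K : ℤ) ≤ 4 * g + 1}) := by
    obtain ⟨a, rfl⟩ := Submodule.Quotient.mk_surjective _ α
    have h2 := Pool.Agent.KS6_19.PB.generation hg.riemann
      ((Submodule.span ℚ (bl '' {y : K | (finrank k⟮y⟯ K : ℤ) ≤ 4 * g + 1})).comap
        (Submodule.mkQ (Submodule.span ℚ (relations K)))) ?_ ?_
    · have h3 : a ∈ (Submodule.span ℚ (bl '' {y : K | (finrank k⟮y⟯ K : ℤ) ≤ 4 * g + 1})).comap
          (Submodule.mkQ (Submodule.span ℚ (relations K))) := h2 ▸ Submodule.mem_top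
      exact h3
    · intro r hr
      have h3 : (Submodule.Quotient.mk r : PreBloch K) = 0 :=
        (Submodule.Quotient.mk_eq_zero _).2 (Submodule.subset_span hr)
      rw [Submodule.mem_comap, Submodule.mkQ_apply]
      exact h3 ▸ zero_mem _
    · intro y hy
      exact Submodule.subset_span ⟨y, hy, rfl⟩
  exact Pool.Agent.KS6_19.PB.invariant_mem hG bl
    (fun σ => act (MulSemiringAction.toRingEquiv G K σ)) (fun σ x => act_bl _ x) _ α h1 hα

end Pool.Agent.Results.MP_a09a03_nt.BlochGroupBoundedDegree
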