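import Pool.Agent.KS6_19.CG.Deg

/-!
# The motivic cohomology of a curve is generated by symbols of functions of bounded degree

Let `K` be a function field of one variable over a field `k` of characteristic zero, that is, the
function field of an arbitrary smooth projective curve `X` over `k`, of genus `g`. Let `I` be a
closed point of `X`, `δ` its degree, and let `9 max(g, 1) + 7 δ - 9 ≤ 2 (N + 1) δ`. Then the
subspace of `K_r^M(K) ⊗ ℚ` spanned by the symbols `{f_1, ..., f_r}` of functions which are regular
outside `I` and have a pole of order at most `N` at `I` consists exactly of the classes which are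
unramified at all closed points `P ≠ I` of `X` which are not zeros of such functions.

For `r = 2` this contains `H^2_M(X, ℚ(2))`, hence the group `H^2_M(X_{/ℤ}, ℚ(2))` on which the
regulator `ρ^1` of a curve over `ℚ` is defined. For an elliptic curve `X` with the origin `I`
one may take `N = 3`: all of `H^2_M(X, ℚ(2))` is generated by symbols of linear functions
`a + b x + c y`.
-/

set_option autoImplicit false

namespace Pool.Agent.Results.MP_a09a03_nt.BoundedDegreeSymbols

open FF Pool.Agent.TH826.MK Pool.Agent.KS6_19.CG

variable {k K : Type*} [Field k] [Field K] [Algebra k K]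

/-- The subspace of `K_r^M(K) ⊗ ℚ` spanned by the symbols of functions whose only pole is `I`, of
order at most `N`. -/
noncomputable def boundedSymbols (I : Place k K) (N : ℤ) (r : ℕ) : Submodule ℚ (KQ K r) :=
  Submodule.span ℚ {z | ∃ a : Fin r → Kˣ,
    (∀ i, (a i : K) ∈ LL (Finsupp.single I N)) ∧ z = symb a}

/-- The classes in `K_r^M(K) ⊗ ℚ` which are unramified at `P`: the subspace generated by the
symbols of units at `P`, which is the kernel of the tame symbol (residue map) at `P`. -/
noncomputable def unramifiedAt (P : Place k K) (r : ℕ) : Submodule ℚ (KQ K r) :=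
  Submodule.span ℚ {z | ∃ a : Fin r → Kˣ, (∀ i, P.ord (a i : K) = 0) ∧ z = symb a}

/-- Every function field of one variable over a field of characteristic zero has a genus `g`, and
the symbols of functions of degree at most `N deg I` with the only pole `I` span exactly the
classes which are unramified at all the points `P ≠ I` which are not zeros of such functions, as
soon as `9 max(g, 1) + 7 deg I - 9 ≤ 2 (N + 1) deg I`. -/
theorem result (k K : Type*) [Field k] [Field K] [Algebra k K] [CharZero k] [IsFF k K] :
    (∃ g : ℤ, IsGenus k K g) ∧
    ∀ (g : ℤ), IsGenus k K g → ∀ (I : Place k K) (N : ℤ),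
      9 * max g 1 + 7 * (degree I : ℤ) - 9 ≤ 2 * ((N + 1) * degree I) → ∀ r : ℕ,
      boundedSymbols I N r = ⨅ (P : Place k K) (_ : P ≠ I ∧
        ∀ f ∈ LL (Finsupp.single I N), f ≠ 0 → P.ord f = 0), unramifiedAt P r := by
  refine ⟨exists_isGenus k K, fun g hg I N hN r => ?_⟩
  rw [degree_eq] at hN
  apply le_antisymm
  · unfold boundedSymbols
    rw [Submodule.span_le]
    rintro z ⟨a, ha, rfl⟩
    simp only [SetLike.mem_coe, Submodule.mem_iInf]
    rintro P ⟨-, hP⟩
    exact Submodule.subset_span ⟨a, fun i => hP _ (ha i) (a i).ne_zero, rfl⟩
  · intro α hα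
    simp only [Submodule.mem_iInf] at hα
    cases r with
    | zero =>
      refine KQ_span _ (fun a => ?_) α
      exact Submodule.subset_span ⟨a, fun i => i.elim0, rfl⟩
    | succ r =>
      refine mem_U_of_res I hg.riemann_max (le_max_right _ _) hN r α ?_
      intro P hPI hP
      have h3 := hα P ⟨hPI, fun f hf hf0 => ord_eq_zero_of_not_Van I hPI hP hf0 hf⟩
      have h4 : unramifiedAt P (r + 1) ≤ LinearMap.ker (Pool.Agent.KS6_19.res P r) := by
        unfold unramifiedAt
        rw [Submodule.span_le]
        rintro z ⟨a, ha, rfl⟩
        exact Pool.Agent.KS6_19.res_symb_of_units P a ha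
      exact h4 h3

end Pool.Agent.Results.MP_a09a03_nt.BoundedDegreeSymbols
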