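import Pool.Agent.KS6_19.CG.Deg
import Pool.Agent.KS6_19.CG.Surj
import Pool.Agent.KS6_19.KQ.Tame

/-!
# The `K_1`-part of the motivic cohomology of a curve is generated by special points

Let `K` be a function field of one variable over a field `k` of characteristic zero, that is, the
function field of a smooth projective curve `X` over `k`, of genus `g`, and let `I` be a closed
point of `X` of degree `δ`. A closed point `P ≠ I` is called general if `deg P ≥ g + δ` and if
no nonzero function with a pole of order at most `n` at `I` and no other pole vanishes at `P`, for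
all `n` with `2 n δ - deg P < 2 g + 2 δ - 1`. All points of degree at least `2 g + 2 δ - 1` are
general.

The theorem: the tame symbols `K_{r+1}^M(K) ⊗ ℚ → ⊕ K_r^M(κ(P)) ⊗ ℚ` map onto the sum over all
general points. Hence the cokernel of the tame symbols, for `r = 1` the group
`H^3_M(X, ℚ(2)) = H^1(X, K_2) ⊗ ℚ`, is generated by the groups `K_r^M(κ(P)) ⊗ ℚ` of the points
which are not general. On an elliptic curve with the origin `I` these are the rational points and
the pairs `{Q, -Q}`.
-/

set_option autoImplicit false

namespace Pool.Agent.Results.MP_a09a03_nt.GeneralPointsEliminated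

open FF Pool.Agent.TH826.MK Pool.Agent.KS6_19 Pool.Agent.KS6_19.CG

variable {k K : Type*} [Field k] [Field K] [Algebra k K]

/-- The closed point `P` is general with respect to the point `I` (and to the number `g`, the
genus): `P ≠ I`, `deg P ≥ g + deg I`, and a function whose only pole is `I`, of order at most `n`,
does not vanish at `P` unless `2 n deg I - deg P ≥ 2 g + 2 deg I - 1`. -/
def IsGeneral (g : ℤ) (I P : Place k K) : Prop :=
  P ≠ I ∧ g + (degree I : ℤ) ≤ degree P ∧
    ∀ (n : ℤ) (f : K), f ≠ 0 → f ∈ LL (Finsupp.single I n) → 0 < P.ord f →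
      2 * g + 2 * (degree I : ℤ) - 1 ≤ 2 * (n * degree I) - degree P

/-- The tame symbols at all the points which are general with respect to `I` can be prescribed
arbitrarily: for every finite set `s` and all `β P ∈ K_r^M(κ(P)) ⊗ ℚ` there is a class `α` in
`K_{r+1}^M(K) ⊗ ℚ` whose tame symbol is `β P` at the general points in `s`, and zero at the other
general points. -/
def Prescribable (g : ℤ) (I : Place k K) (r : ℕ) : Prop :=
  ∀ τ : ∀ P : Place k K, ResMap P r, (∀ P, IsTameSymbol P r (τ P)) →
    ∀ (s : Finset (Place k K)) (β : ∀ P : Place k K, KQ (ResFld P) r),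
      ∃ α : KQ K (r + 1), ∀ P : Place k K, IsGeneral g I P →
        (P ∈ s → τ P α = β P) ∧ (P ∉ s → τ P α = 0)

/-- Every function field of one variable over a field of characteristic zero has a genus; the tame
symbols exist and are unique; all points of degree at least `2 g + 2 deg I - 1` are general; and
the tame symbols at the general points can be prescribed arbitrarily. -/
theorem result (k K : Type*) [Field k] [Field K] [Algebra k K] [CharZero k] [IsFF k K] :
    (∃ g : ℤ, IsGenus k K g) ∧
    (∀ (P : Place k K) (r : ℕ), ∃! τ : ResMap P r, IsTameSymbol P r τ) ∧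
    ∀ g : ℤ, IsGenus k K g → ∀ I : Place k K,
      (∀ P : Place k K, P ≠ I → 2 * g + 2 * (degree I : ℤ) - 1 ≤ degree P → IsGeneral g I P) ∧
      ∀ r : ℕ, Prescribable g I r := by
  classical
  refine ⟨exists_isGenus k K, existsUnique_tame, fun g hg I => ⟨fun P hP hd => ?_, ?_⟩⟩
  · have hR := hg.riemann (Finsupp.single I (-1))
    have h0 : ell (Finsupp.single I (-1) : Place k K →₀ ℤ) = 0 := by
      unfold ell
      have hpos : (0 : ℤ) < I.deg := by exact_mod_cast I.deg_pos
      rw [LL_eq_bot (by rw [ddeg_single]; omega)]
      simp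
    rw [h0, ddeg_single] at hR
    rw [degree_eq, degree_eq] at hd
    refine ⟨hP, by rw [degree_eq, degree_eq]; omega, fun n f hf0 hf hfP => ?_⟩
    rw [degree_eq, degree_eq]
    have := deg_le_of_Van I hP ⟨f, hf0, hf, hfP⟩
    omega
  · intro r τ hτ s β
    have hiff : ∀ P : Place k K, IsGeneral g I P ↔ General I g P := by
      intro P
      unfold IsGeneral
      rw [degree_eq, degree_eq]
      constructor
      · rintro ⟨h1, h2, h3⟩
        exact ⟨h1, h2, fun n ⟨f, hf0, hf, hfP⟩ => h3 n f hf0 hf hfP⟩
      · rintro ⟨h1, h2, h3⟩
        exact ⟨h1, h2, fun n f hf0 hf hfP => h3 n ⟨f, hf0, hf, hfP⟩⟩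
    obtain ⟨α, hα, hα'⟩ := exists_res I hg.riemann r (s.filter fun P => General I g P)
      (fun P => KQ.map r (ofResFld P) (β P)) (fun P hP => (Finset.mem_filter.1 hP).2)
    refine ⟨α, fun P hP => ?_⟩
    have hPG := (hiff P).1 hP
    have hτP : τ P = tame P r := (hτ P).unique (tame_isTameSymbol P r)
    rw [hτP]
    unfold tame
    constructor
    · intro hs
      rw [LinearMap.comp_apply, hα P (Finset.mem_filter.2 ⟨hs, hPG⟩)]
      exact LinearMap.congr_fun (map_to_of P r) (β P)
    · intro hs
      rw [LinearMap.comp_apply, hα' P hPG (fun h => hs (Finset.mem_filter.1 h).1), map_zero]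

end Pool.Agent.Results.MP_a09a03_nt.GeneralPointsEliminated
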