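import Pool.Agent.KS6_19.CG.Two

/-!
# Elliptic fibrations: the unramified classes are combinations of `{b_1, ..., b_{r-2}, x - a, ℓ}`

Let `K` be the function field of an elliptic curve `E` over a field `k` of characteristic zero,
with origin `I`; for instance `k` is the function field of a variety `B` over a number field and
`K` is the function field of an elliptic fibration over `B` with a section. We show that every
class in `K_r^M(K) ⊗ ℚ` which is unramified at all closed points `P ≠ I` of `E` not lying on any
line is a rational combination of symbols of constants and of at most one line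
`ℓ = a + b x + c y` and at most one vertical line `a + b x`, `a, b, c ∈ k`.
-/

set_option autoImplicit false

namespace Pool.Agent.Results.MP_a09a03_nt.LinesAndConstants

open FF Pool.Agent.TH826.MK Pool.Agent.KS6_19.CG

variable {k K : Type*} [Field k] [Field K] [Algebra k K]

/-- The subspace of `K_r^M(K) ⊗ ℚ` spanned by the symbols `{a_0, ..., a_{r-1}}` with all entries
in `k`, except for at most one entry (index in `s`) whose only pole is `I`, of order at most `3`,
and at most one entry (index in `t`) whose only pole is `I`, of order at most `2`. -/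
noncomputable def linearSymbols (I : Place k K) (r : ℕ) : Submodule ℚ (KQ K r) :=
  Submodule.span ℚ {z | ∃ (a : Fin r → Kˣ) (s t : Finset (Fin r)), s.card ≤ 1 ∧ t.card ≤ 1 ∧
    (∀ i ∈ s, (a i : K) ∈ LL (Finsupp.single I 3)) ∧
    (∀ i ∈ t, (a i : K) ∈ LL (Finsupp.single I 2)) ∧
    (∀ i, i ∉ s → i ∉ t → ∃ c : k, algebraMap k K c = a i) ∧ z = symb a}

/-- The classes in `K_r^M(K) ⊗ ℚ` which are unramified at `P`: the subspace generated by the
symbols of units at `P`, which is the kernel of the tame symbol (residue map) at `P`. -/
noncomputable def unramifiedAt (P : Place k K) (r : ℕ) : Submodule ℚ (KQ K r) :=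
  Submodule.span ℚ {z | ∃ a : Fin r → Kˣ, (∀ i, P.ord (a i : K) = 0) ∧ z = symb a}

/-- Let `K/k` be a function field of genus one with a rational point `I`, in characteristic
zero. For every `r`, the symbols of constants and of at most one line and at most one vertical
line span exactly the classes which are unramified at all points `P ≠ I` which do not lie on a
line. -/
theorem result (k K : Type*) [Field k] [Field K] [Algebra k K] [CharZero k] [IsFF k K]
    (hg : IsGenus k K 1) (I : Place k K) (hI : degree I = 1) (r : ℕ) :
    linearSymbols I r = ⨅ (P : Place k K) (_ : P ≠ I ∧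
        ∀ f ∈ LL (Finsupp.single I 3), f ≠ 0 → P.ord f = 0), unramifiedAt P r := by
  rw [degree_eq] at hI
  have hone : (1 : K) ∈ L I 3 := one_mem_L I (by norm_num)
  have h23 : L I 2 ≤ L I 3 := L_mono I (by norm_num)
  apply le_antisymm
  · unfold linearSymbols
    rw [Submodule.span_le]
    rintro z ⟨a, s, t, -, -, ha, hb, hc, rfl⟩
    simp only [SetLike.mem_coe, Submodule.mem_iInf]
    rintro P ⟨-, hP⟩
    refine Submodule.subset_span ⟨a, fun i => ?_, rfl⟩
    by_cases hi : i ∈ s
    · exact hP _ (ha i hi) (a i).ne_zero
    by_cases hj : i ∈ t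
    · exact hP _ (h23 (hb i hj)) (a i).ne_zero
    · exact hP _ (const_mem hone (hc i hi hj)) (a i).ne_zero
  · have hW : Wm (L I 3) r 2 ≤ linearSymbols I r :=
      Wm_two_le_Wt (V' := L I 2) (exists_comb_L I hI 2) r
    have hU : U I 3 r ≤ Wm (L I 3) r 2 := by
      refine le_trans ?_ (Wm_le_two hone (finrank_L_three_le hg I hI) r r)
      unfold U Wm
      apply Submodule.span_mono
      rintro z ⟨a, ha, rfl⟩
      exact ⟨a, Finset.univ, ha, by simp, fun i hi => absurd (Finset.mem_univ i) hi, rfl⟩
    refine le_trans ?_ (hU.trans hW)
    intro α hα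
    simp only [Submodule.mem_iInf] at hα
    cases r with
    | zero =>
      refine KQ_span _ (fun a => ?_) α
      exact Submodule.subset_span ⟨a, fun i => i.elim0, rfl⟩
    | succ r =>
      refine mem_U_of_res I (g := max 1 1) hg.riemann_max (le_max_right _ _) ?_ r α ?_
      · rw [hI]; norm_num
      intro P hPI hP
      have h3 := hα P ⟨hPI, fun f hf hf0 => ord_eq_zero_of_not_Van I hPI hP hf0 hf⟩
      have h4 : unramifiedAt P (r + 1) ≤ LinearMap.ker (Pool.Agent.KS6_19.res P r) := by
        unfold unramifiedAt
        rw [Submodule.span_le]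
        rintro z ⟨a, ha, rfl⟩
        exact Pool.Agent.KS6_19.res_symb_of_units P a ha
      exact h4 h3

end Pool.Agent.Results.MP_a09a03_nt.LinesAndConstants
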